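import Pool.Agent.MMD.MDim

/-! # Inverse limits of finite-dimensional systems have a metric of metric mean dimension zero -/

open Set Function Filter Topology TopologicalSpace

namespace Pool.Agent.Results.MP_473a82_an.FiniteDimensional

open Pool.Agent.MMD

universe u

/-- Let `X` be a `ℤ^k`-system whose points are separated by equivariant continuous maps to compact
Hausdorff `ℤ^k`-systems of finite covering dimension (for instance, an inverse limit of
finite-dimensional systems). Then some compatible metric has metric mean dimension zero, which is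
the mean dimension of `X`. There is no condition on the periodic points. -/
theorem result {k : ℕ} (hk : 1 ≤ k) {X : Type u} [TopologicalSpace X] [CompactSpace X]
    [MetrizableSpace X] [AddAction (Fin k → ℤ) X] [ContinuousConstVAdd (Fin k → ℤ) X]
    {ι : Type u} {Y : ι → Type u} [∀ j, TopologicalSpace (Y j)] [∀ j, CompactSpace (Y j)]
    [∀ j, T2Space (Y j)] [∀ j, AddAction (Fin k → ℤ) (Y j)]
    [∀ j, ContinuousConstVAdd (Fin k → ℤ) (Y j)]
    (hY : ∀ j, ∃ D, CoveringDimLE (Y j) D) (π : ∀ j, X → Y j) (hπ : ∀ j, Continuous (π j))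
    (heq : ∀ j (n : Fin k → ℤ) x, π j (n +ᵥ x) = n +ᵥ π j x)
    (hsep : ∀ x y, (∀ j, π j x = π j y) → x = y) :
    ∃ d : X → X → ℝ, IsCompatibleMetric d ∧ mmdim k d = 0 ∧
      ∀ ρ : X → X → ℝ, IsCompatibleMetric ρ → mdim k ρ = mmdim k d := by
  let _ : MetricSpace X := metrizableSpaceMetric X
  have h0 : IsCompatibleMetric (fun x y : X => dist x y) := isCompatibleMetric_dist
  obtain ⟨d, hd, hd0⟩ := exists_metric_zero (k := k) h0 fun ε hε δ hδ =>
    exists_stage hk h0 hY π hπ heq hsep hε hδ
  exact ⟨d, hd, hd0, fun ρ hρ => (mdim_eq_zero hk hρ hY π hπ heq hsep).trans hd0.symm⟩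

end Pool.Agent.Results.MP_473a82_an.FiniteDimensional
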