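import Pool.Agent.MDX.Main

/-! # A system of mean dimension zero all of whose metrics have positive metric mean dimension -/

open Set Filter Topology TopologicalSpace

namespace Pool.Agent.Results.MP_473a82_an.ZeroMeanDimension

open Pool.Agent.MMD

/-- There is a compact metrizable `ℤ`-system `X` such that, for EVERY compatible metric `d`, the mean
dimension of `X` is `0` while the metric mean dimension of `(X, d)` is at least `1 / 10`. So the
answer to the question is negative: no compatible metric on `X` has metric mean dimension equal to
the mean dimension. (The system is a subshift of `[0, 1]^ℤ`, with many periodic points.) -/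
theorem result : ∃ (X : Type) (_ : TopologicalSpace X) (_ : CompactSpace X)
    (_ : MetrizableSpace X) (_ : AddAction (Fin 1 → ℤ) X) (_ : ContinuousConstVAdd (Fin 1 → ℤ) X),
    (∃ d : X → X → ℝ, IsCompatibleMetric d) ∧
      ∀ d : X → X → ℝ, IsCompatibleMetric d →
        mdim 1 d = 0 ∧ ((1 / 10 : ℝ) : EReal) ≤ mmdim 1 d := by
  obtain ⟨X, hX1, hX2, hX3, hX4, hX5, h⟩ := Pool.Agent.MDX.main
  refine ⟨X, hX1, hX2, hX3, hX4, hX5, ?_, h⟩
  letI : MetricSpace X := metrizableSpaceMetric X
  exact ⟨fun x y : X => dist x y, isCompatibleMetric_dist⟩

end Pool.Agent.Results.MP_473a82_an.ZeroMeanDimension
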